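import Pool.Agent.N112.WM.Stm2
import Pool.Agent.H137R2.Weak.SetForm

/-!
# The weak theorem modulo the elements of order prime to `m`: set form
-/

set_option autoImplicit false
set_option linter.unusedSectionVars false
set_option linter.unusedVariables false

open scoped Classical Pointwise

namespace Pool.Agent.N314.WM

open H137.PFR H137.TwoPow H137.Weak

section

variable {Γ : Type*} [AddCommGroup Γ]

/-- splitting off the part of order prime to `m` -/
theorem split_coprime (P : AddSubgroup Γ) {z : Γ} {m k j : ℕ} (hm : Nat.Coprime k m)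
    (h1 : k • z ∈ P) (h2 : (m ^ j) • (k • z) = 0) : ∃ o : Γ, k • o = 0 ∧ z - o ∈ P := by
  have hcop : IsCoprime (k : ℤ) ((m ^ j : ℕ) : ℤ) := by
    rw [Nat.isCoprime_iff_coprime]
    exact Nat.Coprime.pow_right j hm
  obtain ⟨u, v, huv⟩ := hcop
  refine ⟨(v * ((m ^ j : ℕ) : ℤ)) • z, ?_, ?_⟩
  · have h3 : k • ((v * ((m ^ j : ℕ) : ℤ)) • z) = v • ((m ^ j) • (k • z)) := by
      rw [← natCast_zsmul, ← natCast_zsmul, ← natCast_zsmul, smul_smul, smul_smul, smul_smul]
      congr 1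
      ring
    rw [h3, h2, smul_zero]
  · have h3 : z - (v * ((m ^ j : ℕ) : ℤ)) • z = u • (k • z) := by
      rw [← natCast_zsmul, smul_smul]
      have h4 : z = (u * k + v * ((m ^ j : ℕ) : ℤ)) • z := by rw [huv, one_smul]
      have h5 : z - (v * ((m ^ j : ℕ) : ℤ)) • z =
          (u * k + v * ((m ^ j : ℕ) : ℤ)) • z - (v * ((m ^ j : ℕ) : ℤ)) • z := by
        rw [← h4]
      rw [h5, ← sub_smul, add_sub_cancel_right]
    rw [h3]
    exact P.zsmul_mem h1 u

theorem comap_range_m (P M : AddSubgroup Γ) (hPM : P ≤ M) (m : ℕ) :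
    (nsmulAddMonoidHom (α := M ⧸ P.addSubgroupOf M) m).range.comap
      (QuotientAddGroup.mk' (P.addSubgroupOf M)) =
      (P ⊔ M.map (nsmulAddMonoidHom (α := Γ) m)).addSubgroupOf M := by
  ext x
  rw [AddSubgroup.mem_comap, AddSubgroup.mem_addSubgroupOf, AddSubgroup.mem_sup]
  constructor
  · rintro ⟨y, hy⟩
    obtain ⟨y, rfl⟩ := QuotientAddGroup.mk_surjective y
    rw [nsmulAddMonoidHom_apply, ← QuotientAddGroup.mk_nsmul] at hy
    have h1 : ((m • y : M) : M ⧸ P.addSubgroupOf M) = (x : M ⧸ P.addSubgroupOf M) := hy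
    rw [QuotientAddGroup.eq, AddSubgroup.mem_addSubgroupOf] at h1
    refine ⟨_, h1, m • (y : Γ), AddSubgroup.mem_map.2 ⟨y, y.2, rfl⟩, ?_⟩
    push_cast
    abel
  · rintro ⟨p, hp, z, hz, hpz⟩
    obtain ⟨y, hy, rfl⟩ := AddSubgroup.mem_map.1 hz
    refine ⟨((⟨y, hy⟩ : M) : M ⧸ P.addSubgroupOf M), ?_⟩
    rw [nsmulAddMonoidHom_apply, ← QuotientAddGroup.mk_nsmul]
    change (((m • (⟨y, hy⟩ : M) : M)) : M ⧸ P.addSubgroupOf M) = (x : M ⧸ P.addSubgroupOf M)
    rw [QuotientAddGroup.eq, AddSubgroup.mem_addSubgroupOf]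
    have h1 : (((-(m • (⟨y, hy⟩ : M)) + x : M)) : Γ) = p := by
      push_cast
      rw [← hpz, nsmulAddMonoidHom_apply]
      abel
    rw [h1]
    exact hp

end

universe u

/-- generators of `M` modulo `P` and the torsion of order prime to `m` -/
theorem gen_final_m (hr : Pool.Agent.N112.WM.StmRankM.{u}) {Γ : Type u} [AddCommGroup Γ]
    {M P : AddSubgroup Γ} (hPM : P ≤ M) (hM : M.FG) (m : ℕ) (hm2 : 2 ≤ m)
    (hP : ∀ x ∈ P, ∃ k : ℕ, (m ^ k) • x = 0)
    (hne : (P ⊔ M.map (nsmulAddMonoidHom (α := Γ) m)).relIndex M ≠ 0) :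
    ∃ S : Finset Γ, 2 ^ S.card ≤ (P ⊔ M.map (nsmulAddMonoidHom (α := Γ) m)).relIndex M ∧
      ∀ a ∈ M, ∃ o : Γ, (∃ k : ℕ, Nat.Coprime k m ∧ k • o = 0) ∧
        a - o ∈ P ⊔ AddSubgroup.closure (S : Set Γ) := by
  have hMfg : AddGroup.FG M := (AddGroup.fg_iff_addSubgroup_fg M).2 hM
  have hQfg : AddGroup.FG (M ⧸ P.addSubgroupOf M) := inferInstance
  have hidx : (nsmulAddMonoidHom (α := M ⧸ P.addSubgroupOf M) m).range.index =
      (P ⊔ M.map (nsmulAddMonoidHom (α := Γ) m)).relIndex M := by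
    rw [AddSubgroup.relIndex, ← comap_range_m P M hPM m,
      AddSubgroup.index_comap_of_surjective _ (QuotientAddGroup.mk'_surjective _)]
  obtain ⟨S, hS, hgen⟩ := hr (M ⧸ P.addSubgroupOf M) m hm2 (by rw [hidx]; exact hne)
  rw [hidx] at hS
  set L : M ⧸ P.addSubgroupOf M → Γ := fun c => ((Quotient.out c : M) : Γ) with hL
  refine ⟨S.image L, ?_, ?_⟩
  · exact le_trans (Nat.pow_le_pow_right (by norm_num) Finset.card_image_le) hS
  · intro a ha
    obtain ⟨k, hk, y, hy, hky⟩ := hgen ((⟨a, ha⟩ : M) : M ⧸ P.addSubgroupOf M)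
    -- lift `y`
    have hlift : ∀ y ∈ AddSubgroup.closure (S : Set (M ⧸ P.addSubgroupOf M)),
        ∃ z : M, (z : M ⧸ P.addSubgroupOf M) = y ∧
          (z : Γ) ∈ AddSubgroup.closure ((S.image L : Finset Γ) : Set Γ) := by
      intro y hy
      induction hy using AddSubgroup.closure_induction with
      | mem x hx =>
        refine ⟨Quotient.out x, Quotient.out_eq x, AddSubgroup.subset_closure ?_⟩
        exact Finset.mem_coe.2 (Finset.mem_image.2 ⟨x, Finset.mem_coe.1 hx, rfl⟩)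
      | zero => exact ⟨0, rfl, AddSubgroup.zero_mem _⟩
      | add x y _ _ hx hy =>
        obtain ⟨z1, h1, h2⟩ := hx
        obtain ⟨z2, h3, h4⟩ := hy
        exact ⟨z1 + z2, by rw [QuotientAddGroup.mk_add, h1, h3], AddSubgroup.add_mem _ h2 h4⟩
      | neg x _ hx =>
        obtain ⟨z1, h1, h2⟩ := hx
        exact ⟨-z1, by rw [QuotientAddGroup.mk_neg, h1], AddSubgroup.neg_mem _ h2⟩
    obtain ⟨z, hz, hzS⟩ := hlift y hy
    have h1 : k • (a - (z : Γ)) ∈ P := by
      rw [← hz, ← QuotientAddGroup.mk_sub, ← QuotientAddGroup.mk_nsmul,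
        QuotientAddGroup.eq_zero_iff, AddSubgroup.mem_addSubgroupOf] at hky
      exact hky
    obtain ⟨j, hj⟩ := hP _ h1
    obtain ⟨o, ho, hzo⟩ := split_coprime P hk h1 hj
    refine ⟨o, ⟨k, hk, ho⟩, ?_⟩
    have h2 : a - o = (a - z - o) + z := by abel
    rw [h2]
    exact AddSubgroup.add_mem_sup hzo hzS

theorem weakM_aux (h1 : Pool.Agent.N112.WM.StmPairM.{u}) (h2 : Pool.Agent.N112.WM.StmRankM.{u})
    (m : ℕ) (hm : 2 ≤ m) (C : ℕ) (hC : N149.Tow.cc m ≤ C)
    {Γ : Type u} [AddCommGroup Γ] (K : ℝ) (A : Finset Γ) (hA : A.Nonempty)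
    (hK : ((A + A).card : ℝ) ≤ K * A.card) :
    ∃ (P : AddSubgroup Γ) (S T : Finset Γ), Finite P ∧
      (((A : Set Γ) + (P : Set Γ)).ncard : ℝ) ≤ (2 * K) ^ (10 * C + 10) * A.card ∧
      (S.card : ℝ) ≤ (10 * C + 10 : ℕ) * Real.log (2 * K) ∧
      (T.card : ℝ) ≤ (2 * K) ^ (10 * C + 10) ∧
      ∀ a ∈ A, ∃ t ∈ T, ∃ o : Γ, (∃ k : ℕ, Nat.Coprime k m ∧ k • o = 0) ∧
        a - t - o ∈ P ⊔ AddSubgroup.closure (S : Set Γ) := by
  have hc : (0 : ℝ) < A.card := by exact_mod_cast hA.card_pos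
  have hK1 : 1 ≤ K := by
    have h1 : (A.card : ℝ) ≤ (A + A).card := by
      exact_mod_cast Finset.card_le_card_add_right hA
    nlinarith
  have hK0 : 0 < K := by linarith
  have hlogK : 0 ≤ Real.log K := Real.log_nonneg hK1
  have hexp : ∀ n : ℕ, Real.exp (n * Real.log K) = K ^ n := by
    intro n
    rw [Real.exp_nat_mul, Real.exp_log hK0]
  have hcc : 0 < N149.Tow.cc m := N149.Tow.cc_pos m
  have hw := law_uw hA
  obtain ⟨M, P, hPM, hMfg, hPfin, hPtor, hM, hPb, hNne, hNb⟩ :=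
    h1 A Γ (uw A) (fun ω : A => (ω : Γ)) m hw hm
  have hκ := kap_uw hA hK1 hK
  rw [Hg_uw hA] at hPb
  have hbound : 2 * N149.Tow.cc m * kap (uw A) (fun ω : A => (ω : Γ)) ≤
      4 * C * Real.log K := by
    calc 2 * N149.Tow.cc m * kap (uw A) (fun ω : A => (ω : Γ))
        ≤ 2 * N149.Tow.cc m * (2 * Real.log K) :=
          mul_le_mul_of_nonneg_left hκ (by positivity)
      _ = N149.Tow.cc m * (4 * Real.log K) := by ring
      _ ≤ C * (4 * Real.log K) := mul_le_mul_of_nonneg_right hC (by positivity)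
      _ = 4 * C * Real.log K := by ring
  -- covering by cosets of `M`
  obtain ⟨T, hTA, hT, hTcov⟩ := cover_cosets hA hK0 hK M (h := 4 * C * Real.log K)
    (by linarith)
  have h2K : 1 ≤ 2 * K := by linarith
  have hT' : (T.card : ℝ) ≤ (2 * K) ^ (10 * C + 10) := by
    have h3 := hexp (4 * C)
    push_cast at h3
    rw [h3] at hT
    calc (T.card : ℝ) ≤ K * K ^ (4 * C) := hT
      _ = K ^ (4 * C + 1) := by ring
      _ ≤ (2 * K) ^ (4 * C + 1) := pow_le_pow_left₀ hK0.le (by linarith) _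
      _ ≤ (2 * K) ^ (10 * C + 10) := pow_le_pow_right₀ h2K (by omega)
  -- almost periodicity
  have hPL : Real.log (Nat.card P) + hh (uw A) (fun ω : A => (ω : Γ)) P ≤
      Real.log A.card + 4 * C * Real.log K := by linarith
  have hPpos : (0 : ℝ) < Nat.card P := by exact_mod_cast Nat.card_pos
  set PF : Finset Γ := (Set.toFinite (P : Set Γ)).toFinset with hPFdef
  have hPF : ∀ x, x ∈ PF ↔ x ∈ P := fun x => by
    rw [hPFdef, Set.Finite.mem_toFinset]
    rfl
  have hper := periodic hA hK1 hK P (by positivity) hPL PF hPF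
  have hper' : ((A + PF).card : ℝ) ≤ (2 * K) ^ (10 * C + 10) * A.card := by
    refine hper.trans ?_
    have h3 := hexp (8 * C)
    push_cast at h3
    have h4 : 2 * (4 * C * Real.log K) = 8 * C * Real.log K := by ring
    rw [h4, h3]
    apply mul_le_mul_of_nonneg_right _ hc.le
    calc 2 * K ^ 2 * K ^ (8 * C) = 2 * K ^ (8 * C + 2) := by ring
      _ ≤ 2 ^ (8 * C + 2) * K ^ (8 * C + 2) := by
          apply mul_le_mul_of_nonneg_right _ (by positivity)
          calc (2 : ℝ) = 2 ^ 1 := by norm_num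
            _ ≤ 2 ^ (8 * C + 2) := pow_le_pow_right₀ (by norm_num) (by omega)
      _ = (2 * K) ^ (8 * C + 2) := by rw [mul_pow]
      _ ≤ (2 * K) ^ (10 * C + 10) := pow_le_pow_right₀ h2K (by omega)
  obtain ⟨S, hS, hgen⟩ := gen_final_m h2 hPM hMfg m hm hPtor hNne
  refine ⟨P, S, T, hPfin, ?_, ?_, hT', ?_⟩
  · refine le_trans ?_ hper'
    have h3 : (A : Set Γ) + (P : Set Γ) ⊆ ((A + PF : Finset Γ) : Set Γ) := by
      rw [Finset.coe_add]
      refine Set.add_subset_add_left ?_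
      intro x hx
      exact Finset.mem_coe.2 ((hPF x).2 hx)
    have h4 := Set.ncard_le_ncard h3 (Finset.finite_toSet _)
    rw [Set.ncard_coe_finset] at h4
    exact_mod_cast h4
  · have h3 : (2 : ℝ) ^ S.card ≤ (P ⊔ M.map (nsmulAddMonoidHom (α := Γ) m)).relIndex M := by
      exact_mod_cast hS
    have h4 := Real.log_le_log (by positivity) h3
    rw [Real.log_pow] at h4
    have h5 : (0.69 : ℝ) < Real.log 2 := by
      have := Real.log_two_gt_d9
      linarith
    have h6 : (S.card : ℝ) * Real.log 2 ≤ 4 * C * Real.log K := by linarith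
    have h7 : Real.log K ≤ Real.log (2 * K) := Real.log_le_log hK0 (by linarith)
    have hC0 : (0 : ℝ) ≤ C := by positivity
    have h8 : (S.card : ℝ) * 0.69 ≤ (S.card : ℝ) * Real.log 2 :=
      mul_le_mul_of_nonneg_left h5.le (by positivity)
    have h9 : 4 * (C : ℝ) * Real.log K ≤ 4 * C * Real.log (2 * K) :=
      mul_le_mul_of_nonneg_left h7 (by positivity)
    have h10 : 0 ≤ (C : ℝ) * Real.log (2 * K) := mul_nonneg hC0 (by linarith)
    push_cast
    nlinarith
  · intro a ha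
    obtain ⟨t, ht, hat⟩ := hTcov a ha
    obtain ⟨o, ho, hmem⟩ := hgen _ hat
    exact ⟨t, ht, o, ho, hmem⟩

end Pool.Agent.N314.WM

namespace Pool.Agent.N112.WM

universe u

/-- **WM8**: the weak theorem modulo the elements of order prime to `m`. -/
theorem weakM (h1 : StmPairM.{u}) (h2 : StmRankM.{u}) : StmWeakM.{u} := by
  intro m hm
  obtain ⟨C, hC⟩ := exists_nat_ge (N149.Tow.cc m)
  refine ⟨10 * C + 10, ?_⟩
  intro Γ _ inst K A hA hK
  have hinst : inst = Classical.decEq Γ := Subsingleton.elim _ _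
  subst hinst
  exact Pool.Agent.N314.WM.weakM_aux h1 h2 m hm C hC K A hA (by convert hK)

end Pool.Agent.N112.WM
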